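import Pool.Agent.Helper25.P2.Mix
import Pool.Agent.Helper92.BQ.Defs

/-!
# The extremal function `U` and Lemma L (phase 2, MP_a4e7e3_co)

`UB k u`: every family of slope at most `k` on a finite group of exponent two satisfies
`D(2A) ≤ u log |G|`; `U k` is the best constant `u`.

* `ub_U`, `U_nonneg`, `U_le`, `U_le_one`, `U_mono`, `U_near`: basic facts;
* `U_thin`: `p² U(k) ≤ U(p k)`; `U_lin`: `U(μ) ≤ U(k) + (1 + U(k)/k)(μ - k)` for `0 < k ≤ μ`;
* `lemL`: if `D_K(Z) ≤ k log [G:K] + x` for all `K` then `D(2Z) ≤ U(k) log |G| + (1 + U(k)/k) x`;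
* `contr_of_U`: `U(μ) ≤ s μ` for all `μ ∈ (0, k]` gives `Contr k s`.
-/

set_option autoImplicit false

namespace Pool.Agent.Helper26.P2

open Finset Pool.Agent.Helper15.BP Pool.Agent.Helper92.BQ

theorem log_index_nonneg {G : Type} [AddCommGroup G] (K : AddSubgroup G) :
    0 ≤ Real.log K.index := Real.log_natCast_nonneg _

theorem log_index_pos {G : Type} [AddCommGroup G] [Finite G] {K : AddSubgroup G} (h : K ≠ ⊤) :
    0 < Real.log K.index := by
  apply Real.log_pos
  have h1 : K.index ≠ 0 := AddSubgroup.index_ne_zero_of_finite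
  have h2 : K.index ≠ 1 := fun h3 => h (AddSubgroup.index_eq_one.1 h3)
  have h3 : 1 < K.index := by omega
  exact_mod_cast h3

theorem ub_one (k : ℝ) : UB k 1 := by
  intro G _ _ _ A _
  rw [one_mul, ← AddSubgroup.index_bot]
  exact (A.add A).D_le_log_index ⊥

theorem ub_self (k : ℝ) : UB k k := by
  intro G _ _ _ A hA
  rw [← AddSubgroup.index_bot]
  exact (A.D_add_le A ⊥).trans (hA ⊥)

theorem U_nonneg (k : ℝ) : 0 ≤ U k := Real.sInf_nonneg fun _ hu => hu.1

theorem U_le_of_ub {k u : ℝ} (h0 : 0 ≤ u) (h : UB k u) : U k ≤ u :=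
  csInf_le ⟨0, fun _ hu => hu.1⟩ ⟨h0, h⟩

theorem U_le {k : ℝ} (h0 : 0 ≤ k) : U k ≤ k := U_le_of_ub h0 (ub_self k)

theorem U_le_one (k : ℝ) : U k ≤ 1 := U_le_of_ub zero_le_one (ub_one k)

theorem ub_U (k : ℝ) : UB k (U k) := by
  intro G _ _ h2 A hA
  have h0 : 0 ≤ Real.log (Nat.card G) := Real.log_natCast_nonneg _
  rcases h0.eq_or_lt with h | h
  · rw [← h, mul_zero]
    have h1 := (A.add A).D_le_log_index ⊥
    rwa [AddSubgroup.index_bot, ← h] at h1
  · rw [← div_le_iff₀ h]
    refine le_csInf ⟨1, zero_le_one, ub_one k⟩ ?_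
    rintro u ⟨_, hu⟩
    rw [div_le_iff₀ h]
    exact hu G h2 A hA

theorem ub_mono {k k' u u' : ℝ} (h : UB k' u) (hk : k ≤ k') (hu : u ≤ u') : UB k u' := by
  intro G _ _ h2 A hA
  refine (h G h2 A fun K => (hA K).trans ?_).trans ?_
  · exact mul_le_mul_of_nonneg_right hk (log_index_nonneg K)
  · exact mul_le_mul_of_nonneg_right hu (Real.log_natCast_nonneg _)

theorem U_mono {k k' : ℝ} (h : k ≤ k') : U k ≤ U k' :=
  U_le_of_ub (U_nonneg k') (ub_mono (ub_U k') h le_rfl)

theorem U_zero : U 0 = 0 := le_antisymm (U_le le_rfl) (U_nonneg 0)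

/-- families of slope at most `k` which nearly attain `U k` -/
theorem U_near {k u : ℝ} (h0 : 0 ≤ u) (h : u < U k) :
    ∃ (G : Type) (_ : AddCommGroup G) (_ : Finite G) (_ : ∀ x : G, x + x = 0) (A : Fam G),
      (∀ K : AddSubgroup G, A.D K ≤ k * Real.log K.index) ∧
      u * Real.log (Nat.card G) < (A.add A).D ⊥ := by
  by_contra hcon
  push Not at hcon
  refine absurd (U_le_of_ub h0 ?_) (not_le.2 h)
  intro G _ _ h2 A hA
  exact hcon G inferInstance inferInstance h2 A hA

/-- **thinning** -/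
theorem U_thin {p k : ℝ} (hp0 : 0 ≤ p) (hp1 : p ≤ 1) : p ^ 2 * U k ≤ U (p * k) := by
  rcases hp0.eq_or_lt with h | hp
  · rw [← h]
    simpa using U_nonneg 0
  have hp2 : 0 < p ^ 2 := by positivity
  rw [mul_comm, ← le_div_iff₀ hp2]
  refine U_le_of_ub (div_nonneg (U_nonneg _) hp2.le) ?_
  intro G _ _ h2 A hA
  have h1 := ub_U (p * k) G h2 (A.thin p hp0 hp1) (fun K => by
    rw [Fam.thin_D, mul_assoc]
    exact mul_le_mul_of_nonneg_left (hA K) hp.le)
  rw [Fam.thin_thin_D] at h1
  rw [div_mul_eq_mul_div, le_div_iff₀ hp2, mul_comm]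
  exact h1

/-- `U` grows at most linearly above `k` -/
theorem U_lin {k μ : ℝ} (hk : 0 < k) (hμ : k ≤ μ) :
    U μ ≤ U k + (1 + U k / k) * (μ - k) := by
  have hμ0 : 0 < μ := hk.trans_le hμ
  have h : (k / μ) ^ 2 * U μ ≤ U (k / μ * μ) :=
    U_thin (div_nonneg hk.le hμ0.le) ((div_le_one hμ0).2 hμ)
  rw [div_mul_cancel₀ _ hμ0.ne'] at h
  set t : ℝ := μ / k with ht
  have ht1 : 1 ≤ t := (one_le_div hk).2 hμ
  have e1 : μ = t * k := by rw [ht, div_mul_cancel₀ _ hk.ne']
  have h1 : U μ ≤ U k * t ^ 2 := by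
    rw [div_pow, div_mul_eq_mul_div, div_le_iff₀ (by positivity)] at h
    rw [ht, div_pow, ← mul_div_assoc, le_div_iff₀ (by positivity), mul_comm]
    exact h
  have h2 : U μ ≤ μ := U_le hμ0.le
  have e2 : U k + (1 + U k / k) * (μ - k) = U k * t + k * (t - 1) := by
    rw [e1]
    field_simp
    ring
  rw [e2]
  rcases le_total (U k * t) k with h3 | h3
  · refine h1.trans ?_
    nlinarith
  · refine h2.trans ?_
    rw [e1]
    nlinarith

section

variable {G : Type} [AddCommGroup G] [Finite G]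

/-- a subgroup of maximal slope -/
theorem exists_max_slope [Nontrivial G] (A : Fam G) : ∃ (H : AddSubgroup G) (μ : ℝ), H ≠ ⊤ ∧
    0 ≤ μ ∧ A.D H = μ * Real.log H.index ∧ ∀ K : AddSubgroup G, A.D K ≤ μ * Real.log K.index := by
  classical
  have : Fintype (AddSubgroup G) := Fintype.ofFinite _
  obtain ⟨H, hH, hmax⟩ := Finset.exists_max_image
    ((Finset.univ : Finset (AddSubgroup G)).filter (· ≠ ⊤))
    (fun K => A.D K / Real.log K.index) ⟨⊥, by simp⟩
  rw [Finset.mem_filter] at hH
  have hH' : H ≠ ⊤ := hH.2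
  have h1 := log_index_pos hH'
  refine ⟨H, A.D H / Real.log H.index, hH', div_nonneg (A.D_nonneg H) h1.le,
    (div_mul_cancel₀ _ h1.ne').symm, fun K => ?_⟩
  by_cases hK : K = ⊤
  · rw [hK, A.D_top, AddSubgroup.index_top, Nat.cast_one, Real.log_one, mul_zero]
  · have h2 := hmax K (by simp [hK])
    rwa [div_le_iff₀ (log_index_pos hK)] at h2

omit [Finite G] in
theorem mod_slope {A : Fam G} {μ : ℝ} (h : ∀ K : AddSubgroup G, A.D K ≤ μ * Real.log K.index)
    (H : AddSubgroup G) (K : AddSubgroup (G ⧸ H)) : (A.mod H).D K ≤ μ * Real.log K.index := by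
  rw [Fam.mod_D, ← AddSubgroup.index_comap_of_surjective K (QuotientAddGroup.mk'_surjective H)]
  exact h _

theorem log_card_eq (H : AddSubgroup G) :
    Real.log (Nat.card G) = Real.log (Nat.card H) + Real.log H.index := by
  have h1 : (Nat.card G : ℝ) = Nat.card H * H.index := by
    exact_mod_cast (AddSubgroup.card_mul_index H).symm
  rw [h1, Real.log_mul]
  · exact_mod_cast Nat.card_pos.ne'
  · exact_mod_cast AddSubgroup.index_ne_zero_of_finite (H := H)

theorem card_lt {H : AddSubgroup G} (h : H ≠ ⊤) : Nat.card H < Nat.card G := by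
  have h1 := AddSubgroup.card_mul_index H
  have h2 : H.index ≠ 0 := AddSubgroup.index_ne_zero_of_finite
  have h3 : H.index ≠ 1 := fun h4 => h (AddSubgroup.index_eq_one.1 h4)
  have h4 : 0 < Nat.card H := Nat.card_pos
  have h5 : 2 ≤ H.index := by omega
  nlinarith

end

theorem exp_two_quot {G : Type} [AddCommGroup G] (h2 : ∀ x : G, x + x = 0) (H : AddSubgroup G) :
    ∀ x : G ⧸ H, x + x = 0 := by
  intro x
  obtain ⟨x, rfl⟩ := QuotientAddGroup.mk'_surjective H x
  rw [← map_add, h2, map_zero]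

theorem exp_two_sub {G : Type} [AddCommGroup G] (h2 : ∀ x : G, x + x = 0) (H : AddSubgroup G) :
    ∀ x : H, x + x = 0 := by
  intro x
  exact Subtype.ext (h2 x)

/-- the deficiency modulo `H` of `2Z` when `Z` has slopes at most `μ` -/
theorem D_mod_le_U {G : Type} [AddCommGroup G] [Finite G] (h2 : ∀ x : G, x + x = 0) (Z : Fam G)
    {μ : ℝ} (h : ∀ K : AddSubgroup G, Z.D K ≤ μ * Real.log K.index) (H : AddSubgroup G) :
    ((Z.mod H).add (Z.mod H)).D ⊥ ≤ U μ * Real.log H.index := by
  have h1 := ub_U μ (G ⧸ H) (exp_two_quot h2 H) (Z.mod H) (fun K => mod_slope h H K)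
  have h3 : Nat.card (G ⧸ H) = H.index := rfl
  rwa [h3] at h1

theorem lemL_aux {k : ℝ} (hk : 0 < k) :
    ∀ (n : ℕ) (G : Type) [AddCommGroup G] [Finite G], (∀ x : G, x + x = 0) → Nat.card G ≤ n →
      ∀ (Z : Fam G) (x : ℝ), (∀ K : AddSubgroup G, Z.D K ≤ k * Real.log K.index + x) →
        (Z.add Z).D ⊥ ≤ U k * Real.log (Nat.card G) + (1 + U k / k) * x := by
  have hUk := U_nonneg k
  have hc : 0 ≤ 1 + U k / k := by positivity
  intro n
  induction n with
  | zero =>
    intro G _ _ _ hn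
    exact absurd hn (by have : 0 < Nat.card G := Nat.card_pos; omega)
  | succ n ih =>
    intro G _ _ h2 hn Z x hZ
    have hx : 0 ≤ x := by
      have h1 := hZ ⊤
      rwa [Z.D_top, AddSubgroup.index_top, Nat.cast_one, Real.log_one, mul_zero, zero_add] at h1
    rcases subsingleton_or_nontrivial G with hG | hG
    · have h1 := (Z.add Z).D_le_log_index ⊥
      rw [AddSubgroup.index_bot] at h1
      have h3 : Nat.card G = 1 := Nat.card_unique
      rw [h3, Nat.cast_one, Real.log_one] at h1 ⊢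
      have h4 := mul_nonneg hc hx
      linarith
    · obtain ⟨H, μ, hH, hμ0, hDH, hmax⟩ := exists_max_slope Z
      by_cases hμ : μ ≤ k
      · have h1 := ub_U k G h2 Z (fun K => (hmax K).trans
          (mul_le_mul_of_nonneg_right hμ (log_index_nonneg K)))
        have h4 := mul_nonneg hc hx
        linarith
      · rw [not_le] at hμ
        have hcard : Nat.card H ≤ n := by
          have := card_lt hH
          omega
        have h1 := ih H (exp_two_sub h2 H) hcard (Z.resV H)
          (x - (μ - k) * Real.log H.index) (fun K => by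
            rw [Fam.resV_D, hDH]
            have h3 := hZ (K.map H.subtype)
            rw [Fam.log_index_map] at h3
            linarith)
        have h3 := D_mod_le_U h2 Z hmax H
        have h4 := Fam.add_le_mod_res Z Z H
        have h5 := U_lin hk hμ.le
        have h6 := mul_le_mul_of_nonneg_right h5 (log_index_nonneg H)
        rw [log_card_eq H]
        nlinarith

/-- **Lemma L** -/
theorem lemL {k : ℝ} (hk : 0 < k) (G : Type) [AddCommGroup G] [Finite G]
    (h2 : ∀ x : G, x + x = 0) (Z : Fam G) (x : ℝ)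
    (hZ : ∀ K : AddSubgroup G, Z.D K ≤ k * Real.log K.index + x) :
    (Z.add Z).D ⊥ ≤ U k * Real.log (Nat.card G) + (1 + U k / k) * x :=
  lemL_aux hk (Nat.card G) G h2 le_rfl Z x hZ

theorem contr_of_U_aux {k s : ℝ} (h : ∀ μ : ℝ, 0 < μ → μ ≤ k → U μ ≤ s * μ) :
    ∀ (n : ℕ) (G : Type) [AddCommGroup G] [Finite G], (∀ x : G, x + x = 0) → Nat.card G ≤ n →
      ∀ A : Fam G, (∀ K : AddSubgroup G, A.D K ≤ k * Real.log K.index) →
        (A.add A).D ⊥ ≤ s * A.D ⊥ := by
  intro n
  induction n with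
  | zero =>
    intro G _ _ _ hn
    exact absurd hn (by have : 0 < Nat.card G := Nat.card_pos; omega)
  | succ n ih =>
    intro G _ _ h2 hn A hA
    have hzero : A.D ⊥ = 0 → (A.add A).D ⊥ ≤ s * A.D ⊥ := by
      intro h0
      rw [h0, mul_zero, ← h0]
      exact A.D_add_le A ⊥
    rcases subsingleton_or_nontrivial G with hG | hG
    · apply hzero
      refine le_antisymm ?_ (A.D_nonneg ⊥)
      have h1 := A.D_le_log_index ⊥
      rw [AddSubgroup.index_bot] at h1
      have h3 : Nat.card G = 1 := Nat.card_unique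
      rwa [h3, Nat.cast_one, Real.log_one] at h1
    · obtain ⟨H, μ, hH, hμ0, hDH, hmax⟩ := exists_max_slope A
      rcases hμ0.eq_or_lt with h0 | h0
      · apply hzero
        refine le_antisymm ?_ (A.D_nonneg ⊥)
        have h1 := hmax ⊥
        rwa [← h0, zero_mul] at h1
      · have hμk : μ ≤ k := by
          have h1 := hA H
          rw [hDH] at h1
          exact le_of_mul_le_mul_right h1 (log_index_pos hH)
        have hcard : Nat.card H ≤ n := by
          have := card_lt hH
          omega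
        have h1 := ih H (exp_two_sub h2 H) hcard (A.resV H) (fun K => by
            rw [Fam.resV_D, hDH]
            have h3 := hmax (K.map H.subtype)
            rw [Fam.log_index_map] at h3
            have h4 := mul_le_mul_of_nonneg_right hμk (log_index_nonneg K)
            linarith)
        rw [Fam.resV_D_bot, hDH] at h1
        have h3 := D_mod_le_U h2 A hmax H
        have h4 := Fam.add_le_mod_res A A H
        have h6 := mul_le_mul_of_nonneg_right (h μ h0 hμk) (log_index_nonneg H)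
        nlinarith

/-- `U(μ) ≤ s μ` for all `μ ∈ (0, k]` gives the contraction at slope `k` -/
theorem contr_of_U {k s : ℝ} (h : ∀ μ : ℝ, 0 < μ → μ ≤ k → U μ ≤ s * μ) : Contr k s := by
  intro G _ _ h2 A hA
  exact contr_of_U_aux h (Nat.card G) G h2 le_rfl A hA

/-! ### The statements of helper92's file -/

theorem thin_holds : THIN := fun _ _ h0 h1 _ => U_thin h0 h1

theorem leml_holds : LEML := fun _ hk _ G _ _ h2 Z x hZ => lemL hk G h2 Z x hZ

theorem sofu_holds : SOFU := fun _ _ _ _ h => contr_of_U h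

end Pool.Agent.Helper26.P2
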